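import Pool.Agent.H47.XR2.Lev

/-!
# Project XR2, row LOW: rotation numbers of inner approximations are at most `θ / Tm`
-/

set_option autoImplicit false

open MeasureTheory Set Filter Topology Metric
open scoped Real ENNReal

namespace Pool.XR2

open Pool.Agent.H45.XR

namespace HL

/-- chords in a nearby direction are not much longer than the X-ray -/
theorem chord_short {C : Set ℂ} (hC : Convex ℝ C) {R : ℝ} (hR : C ⊆ closedBall 0 R)
    {φ θ a b a' b' : ℝ} {O₁ O₂ : ℂ} (hO1 : O₁ ∈ C) (hO2 : O₂ ∈ C) (h1 : tc φ O₁ = a')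
    (h2 : tc φ O₂ = b') (ha : a' < a) (hb : b < b') {P Q : ℂ} (hP : P ∈ C) (hQ : Q ∈ C) {s : ℝ}
    (hQP : Q = P + s * e (φ + θ)) {t : ℝ} (ht1 : a ≤ t)
    (ht2 : t ≤ b) (ht3 : tc φ P ≤ t) (ht4 : t ≤ tc φ Q) :
    s * (Real.cos θ - (2 * R / (b' - b) + 2 * R / (a - a')) * Real.sin θ) ≤ xr C φ t := by
  have hn : ∀ z ∈ C, |yc φ z| ≤ R := fun z hz =>
    (abs_yc_le z).trans (mem_closedBall_zero_iff.1 (hR hz))
  have hR0 : 0 ≤ R := (abs_nonneg _).trans (hn P hP)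
  have hty : tc φ Q = tc φ P + s * Real.sin θ := by
    rw [hQP, tc_add, tc_mul, tc_e]
    congr 3
    ring
  have hyy : yc φ Q = yc φ P + s * Real.cos θ := by
    rw [hQP, yc_add, yc_mul, yc_e]
    congr 3
    ring
  set K1 := s * Real.sin θ with hK1
  have hd1 : 0 < b' - tc φ P := by linarith
  have hd2 : 0 < tc φ Q - a' := by linarith
  have hb0 : 0 < b' - b := by linarith
  have ha0 : 0 < a - a' := by linarith
  have hs0 : 0 ≤ K1 := by linarith
  set lam := (t - tc φ P) / (b' - tc φ P) with hlam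
  set mu := (tc φ Q - t) / (tc φ Q - a') with hmu
  have hl0 : 0 ≤ lam := div_nonneg (by linarith) hd1.le
  have hl1 : lam ≤ 1 := (div_le_one hd1).2 (by linarith)
  have hm0 : 0 ≤ mu := div_nonneg (by linarith) hd2.le
  have hm1 : mu ≤ 1 := (div_le_one hd2).2 (by linarith)
  have hl2 : lam ≤ K1 / (b' - b) := div_le_div₀ hs0 (by linarith) hb0 (by linarith)
  have hm2 : mu ≤ K1 / (a - a') := div_le_div₀ hs0 (by linarith) ha0 (by linarith)
  have hz : (1 - lam) • P + lam • O₂ ∈ C := hC hP hO2 (by linarith) hl0 (by ring)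
  have hw : (1 - mu) • Q + mu • O₁ ∈ C := hC hQ hO1 (by linarith) hm0 (by ring)
  have htz : tc φ ((1 - lam) • P + lam • O₂) = t := by
    rw [tc_add, tc_smul, tc_smul, h2, hlam]
    field_simp
    ring
  have htw : tc φ ((1 - mu) • Q + mu • O₁) = t := by
    rw [tc_add, tc_smul, tc_smul, h1, hmu]
    field_simp
    ring
  have h3 := xr_ge hC hR hz hw (by rw [htz, htw])
  rw [htz, yc_add, yc_add, yc_smul, yc_smul, yc_smul, yc_smul] at h3
  have e1 : lam * (yc φ O₂ - yc φ P) ≤ K1 / (b' - b) * (2 * R) := by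
    have h4 : yc φ O₂ - yc φ P ≤ 2 * R := by
      linarith [(abs_le.1 (hn _ hO2)).2, (abs_le.1 (hn _ hP)).1]
    calc lam * (yc φ O₂ - yc φ P) ≤ lam * (2 * R) := mul_le_mul_of_nonneg_left h4 hl0
      _ ≤ _ := mul_le_mul_of_nonneg_right hl2 (by linarith)
  have e2 : mu * (yc φ Q - yc φ O₁) ≤ K1 / (a - a') * (2 * R) := by
    have h4 : yc φ Q - yc φ O₁ ≤ 2 * R := by
      linarith [(abs_le.1 (hn _ hQ)).2, (abs_le.1 (hn _ hO1)).1]
    calc mu * (yc φ Q - yc φ O₁) ≤ mu * (2 * R) := mul_le_mul_of_nonneg_left h4 hm0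
      _ ≤ _ := mul_le_mul_of_nonneg_right hm2 (by linarith)
  have e3 : s * (Real.cos θ - (2 * R / (b' - b) + 2 * R / (a - a')) * Real.sin θ) =
      s * Real.cos θ - K1 / (b' - b) * (2 * R) - K1 / (a - a') * (2 * R) := by
    rw [hK1]
    ring
  rw [e3]
  nlinarith

/-- the integral over the levels of one chord -/
theorem step_short {C : Set ℂ} (hC : Convex ℝ C) {R : ℝ} (hR : C ⊆ closedBall 0 R)
    {φ θ a b a' b' κ : ℝ} {O₁ O₂ : ℂ} (hO1 : O₁ ∈ C) (hO2 : O₂ ∈ C) (h1 : tc φ O₁ = a')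
    (h2 : tc φ O₂ = b') (ha : a' < a) (hb : b < b') (hθ : 0 < Real.sin θ)
    (hκ : 0 < κ)
    (hκ' : κ ≤ Real.cos θ - (2 * R / (b' - b) + 2 * R / (a - a')) * Real.sin θ)
    {P Q : ℂ} (hP : P ∈ C) (hQ : Q ∈ C) (hPQ : tc (φ + θ) Q = tc (φ + θ) P) :
    ∫⁻ x in Ioc (tc φ P) (tc φ Q) ∩ Ioc a b, ENNReal.ofReal (2 / xr C φ x) ≤
      ENNReal.ofReal (2 * Real.sin θ / κ) := by
  obtain ⟨s, hs⟩ : ∃ s : ℝ, Q = P + s * e (φ + θ) := ⟨_, eq_add_of_tc_eq hPQ⟩
  have hty : tc φ Q = tc φ P + s * Real.sin θ := by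
    rw [hs, tc_add, tc_mul, tc_e]
    congr 3
    ring
  rcases le_or_gt s 0 with h0 | h0
  · have : Ioc (tc φ P) (tc φ Q) = ∅ := Ioc_eq_empty (by nlinarith)
    rw [this, empty_inter]
    simp
  calc ∫⁻ x in Ioc (tc φ P) (tc φ Q) ∩ Ioc a b, ENNReal.ofReal (2 / xr C φ x)
      ≤ ∫⁻ x in Ioc (tc φ P) (tc φ Q) ∩ Ioc a b, ENNReal.ofReal (2 / (s * κ)) := by
        refine setLIntegral_mono' (measurableSet_Ioc.inter measurableSet_Ioc) fun x hx => ?_
        apply ENNReal.ofReal_le_ofReal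
        have h3 := chord_short hC hR hO1 hO2 h1 h2 ha hb hP hQ hs (t := x) hx.2.1.le hx.2.2
          hx.1.1.le hx.1.2
        have h4 : s * κ ≤ xr C φ x := (mul_le_mul_of_nonneg_left hκ' h0.le).trans h3
        exact div_le_div_of_nonneg_left (by norm_num) (mul_pos h0 hκ) h4
    _ ≤ ∫⁻ x in Ioc (tc φ P) (tc φ Q), ENNReal.ofReal (2 / (s * κ)) :=
        lintegral_mono_set inter_subset_left
    _ = ENNReal.ofReal (2 * Real.sin θ / κ) := by
        rw [setLIntegral_const, Real.volume_Ioc, ← ENNReal.ofReal_mul (by positivity)]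
        congr 1
        rw [hty]
        field_simp
        ring

/-- the coordinates for two nearby directions -/
theorem tc_near {φ θ R : ℝ} (hθ : 0 ≤ θ) {z : ℂ} (hz : ‖z‖ ≤ R) :
    |tc φ z - tc (φ + θ) z| ≤ 2 * R * θ := by
  have hR : 0 ≤ R := (norm_nonneg z).trans hz
  have h1 : tc φ z - tc (φ + θ) z = (1 - Real.cos θ) * tc φ z + Real.sin θ * yc φ z := by
    simp only [tc, yc, Real.cos_add, Real.sin_add]
    ring
  have h2 : |1 - Real.cos θ| ≤ θ := by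
    rw [abs_of_nonneg (by linarith [Real.cos_le_one θ])]
    have h3 : Real.cos θ = 1 - 2 * Real.sin (θ / 2) ^ 2 := by
      have h9 : Real.cos θ = Real.cos (2 * (θ / 2)) := by congr 1; ring
      have h4 := Real.sin_sq_add_cos_sq (θ / 2)
      rw [h9, Real.cos_two_mul]
      linarith
    have h5 : Real.sin (θ / 2) ^ 2 ≤ |Real.sin (θ / 2)| := by
      have h6 := Real.abs_sin_le_one (θ / 2)
      have h7 := abs_nonneg (Real.sin (θ / 2))
      rw [← sq_abs]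
      nlinarith
    have h8 : |Real.sin (θ / 2)| ≤ θ / 2 := by
      have := Real.abs_sin_le_abs (x := θ / 2)
      rwa [abs_of_nonneg (by linarith : 0 ≤ θ / 2)] at this
    linarith
  have h3 : |Real.sin θ| ≤ θ := by
    have := Real.abs_sin_le_abs (x := θ)
    rwa [abs_of_nonneg hθ] at this
  rw [h1]
  calc |(1 - Real.cos θ) * tc φ z + Real.sin θ * yc φ z|
      ≤ |1 - Real.cos θ| * |tc φ z| + |Real.sin θ| * |yc φ z| := by
        rw [← abs_mul, ← abs_mul]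
        exact abs_add_le _ _
    _ ≤ θ * R + θ * R := by
        gcongr
        · exact (abs_tc_le z).trans hz
        · exact (abs_yc_le z).trans hz
    _ = 2 * R * θ := by ring

/-- The data of a half turn. -/
structure Tips (D : Set ℂ) (φ r l : ℝ) : Prop where
  r1 : φ - π < r
  r2 : r < φ
  l1 : φ < l
  l2 : l < φ + π
  mn : ∀ z ∈ D, tc φ (pt D r) ≤ tc φ z
  mx : ∀ z ∈ D, tc φ z ≤ tc φ (pt D l)
  fr : fl D φ r = r
  fL : fl D φ l = l - 2 * π

theorem tips_of {D : Set ℂ} {φ : ℝ} (h : IsFlip D φ (fl D φ)) : ∃ r l, Tips D φ r l := by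
  obtain ⟨r, h1, h2, h3, h4⟩ := h.rt
  obtain ⟨l, g1, g2, g3, g4⟩ := h.lt
  exact ⟨r, l, h1, h2, g1, g2, h4, g4, h3, g3⟩

/-- the cap cut off by the chord through the tip -/
theorem cap {D : Set ℂ} (hD : Body D) {φ θ r l : ℝ} (hS' : NoSeg D (φ + θ))
    (h' : IsFlip D (φ + θ) (fl D (φ + θ)))
    (hFF : ∀ x, fl D φ x ≤ fl D (φ + θ) x) (hFF' : ∀ x, fl D (φ + θ) x ≤ fl D φ x + 2 * π)
    (hT : Tips D φ r l) {y : ℝ} (hy1 : l ≤ y) (hy2 : y ≤ fl D (φ + θ) l + 2 * π) :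
    tc (φ + θ) (pt D l) ≤ tc (φ + θ) (pt D y) := by
  have hpi := Real.pi_pos
  obtain ⟨r', l', hT'⟩ := tips_of h'
  obtain ⟨hmo, han⟩ := mono_level hD hS' hT'.r1 hT'.r2 hT'.l1 hT'.l2 hT'.mn hT'.mx
  have hrl : r' ≤ l := by
    by_contra hlt
    push Not at hlt
    have h1 := h'.anti hlt
    rw [hT'.fr] at h1
    have h2 := hFF' l
    rw [hT.fL] at h2
    linarith
  have hll : l ≤ l' := by
    by_contra hlt
    push Not at hlt
    have h1 := h'.anti hlt
    rw [hT'.fL] at h1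
    have h2 := hFF l
    rw [hT.fL] at h2
    linarith
  rcases le_or_gt y l' with hyl | hyl
  · exact hmo.monotoneOn ⟨hrl, hll⟩ ⟨hrl.trans hy1, hyl⟩ hy1
  · have h3 : fl D (φ + θ) l ≤ r' := by
      have := h'.anti.antitone hrl
      rwa [hT'.fr] at this
    have h4 : l' - 2 * π ≤ fl D (φ + θ) l := by linarith
    have h5 := han.antitoneOn (a := y - 2 * π) (b := fl D (φ + θ) l)
      ⟨by linarith, by linarith⟩ ⟨h4, h3⟩ (by linarith)
    have h6 : pt D (y - 2 * π) = pt D y := by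
      have := pt_periodic D (y - 2 * π)
      rw [← this]
      congr 1
      ring
    rw [h6, h'.line] at h5
    exact h5

/-- The half turn of `LOW`. -/
theorem half_low {C D : Set ℂ} (hC : Convex ℝ C) {R : ℝ} (hR : C ⊆ closedBall 0 R)
    {φ θ a b a' b' κ r l : ℝ} {O₁ O₂ : ℂ} (hO1 : O₁ ∈ C) (hO2 : O₂ ∈ C) (h1 : tc φ O₁ = a')
    (h2 : tc φ O₂ = b') (ha : a' < a) (hb : b < b') (hθ0 : 0 < θ) (hθ : 0 < Real.sin θ)
    (hκ : 0 < κ)
    (hκ' : κ ≤ Real.cos θ - (2 * R / (b' - b) + 2 * R / (a - a')) * Real.sin θ)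
    (hD : Body D) (hDC : D ⊆ C) (hS' : NoSeg D (φ + θ))
    (hf : IsFlip D φ (fl D φ)) (h' : IsFlip D (φ + θ) (fl D (φ + θ)))
    (hFF : ∀ x, fl D φ x ≤ fl D (φ + θ) x) (hFF' : ∀ x, fl D (φ + θ) x ≤ fl D φ x + 2 * π)
    (hT : Tips D φ r l) (hra : tc φ (pt D r) ≤ a) (hlb : b + 4 * R * θ ≤ tc φ (pt D l))
    (N : ℕ) (hN : (N : ℝ≥0∞) * ENNReal.ofReal (2 * Real.sin θ / κ) <
      ∫⁻ x in Ioc a b, ENNReal.ofReal (2 / xr C φ x)) :
    (TT D φ (φ + θ))^[N] r ≤ l := by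
  have hpi := Real.pi_pos
  set f : ℝ → ℝ≥0∞ := fun x => ENNReal.ofReal (2 / xr C φ x) with hfdef
  set c : ℝ≥0∞ := ENNReal.ofReal (2 * Real.sin θ / κ) with hc
  have key : ∀ i : ℕ, i ≤ N → r ≤ (TT D φ (φ + θ))^[i] r ∧ (TT D φ (φ + θ))^[i] r < l ∧
      ∫⁻ x in Ioc a b ∩ Iic (tc φ (pt D ((TT D φ (φ + θ))^[i] r))), f x ≤ i * c := by
    intro i
    induction i with
    | zero =>
      intro _
      simp only [Function.iterate_zero, id_eq]
      refine ⟨le_refl r, by linarith [hT.r2, hT.l1], ?_⟩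
      have : Ioc a b ∩ Iic (tc φ (pt D r)) = ∅ := by
        ext x
        simp only [mem_inter_iff, mem_Ioc, mem_Iic, mem_empty_iff_false, iff_false, not_and]
        intro hx1 hx2
        linarith [hx1.1]
      rw [this]
      simp
    | succ i ih =>
      intro hi
      obtain ⟨g1, g2, g3⟩ := ih (by omega)
      rw [Function.iterate_succ_apply']
      set x := (TT D φ (φ + θ))^[i] r with hx
      have hy : TT D φ (φ + θ) x = fl D (φ + θ) (fl D φ x) := rfl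
      have hxy : x ≤ TT D φ (φ + θ) x := by
        rw [hy]
        have := hFF (fl D φ x)
        rwa [hf.inv] at this
      have hx2 : l - 2 * π < fl D φ x := by
        have := hf.anti g2
        rwa [hT.fL] at this
      have hyl : TT D φ (φ + θ) x ≤ fl D (φ + θ) l + 2 * π := by
        have h3 := h'.anti hx2
        have h4 := h'.per (l - 2 * π)
        rw [sub_add_cancel] at h4
        rw [hy]
        linarith
      have hlx : tc φ (pt D (fl D φ x)) = tc φ (pt D x) := hf.line x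
      have hstep := step_short hC hR hO1 hO2 h1 h2 ha hb hθ hκ hκ'
        (hDC (pt_mem hD (fl D φ x))) (hDC (pt_mem hD (fl D (φ + θ) (fl D φ x))))
        (h'.line (fl D φ x))
      rw [hlx] at hstep
      have hint : ∫⁻ z in Ioc a b ∩ Iic (tc φ (pt D (TT D φ (φ + θ) x))), f z ≤
          ((i + 1 : ℕ) : ℝ≥0∞) * c := by
        calc ∫⁻ z in Ioc a b ∩ Iic (tc φ (pt D (TT D φ (φ + θ) x))), f z
            ≤ ∫⁻ z in (Ioc a b ∩ Iic (tc φ (pt D x))) ∪
              (Ioc (tc φ (pt D x)) (tc φ (pt D (TT D φ (φ + θ) x))) ∩ Ioc a b), f z := by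
              refine lintegral_mono_set fun z hz => ?_
              rcases le_or_gt z (tc φ (pt D x)) with h5 | h5
              · exact Or.inl ⟨hz.1, h5⟩
              · exact Or.inr ⟨⟨h5, hz.2⟩, hz.1⟩
          _ ≤ i * c + c := (lintegral_union_le _ _ _).trans (add_le_add g3 hstep)
          _ = _ := by push_cast; ring
      refine ⟨g1.trans hxy, ?_, hint⟩
      by_contra hlt
      push Not at hlt
      have h5 := cap hD hS' h' hFF hFF' hT hlt hyl
      have h6 := tc_near (φ := φ) hθ0.le (mem_closedBall_zero_iff.1 (hR (hDC (pt_mem hD l))))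
      have h7 := tc_near (φ := φ) hθ0.le
        (mem_closedBall_zero_iff.1 (hR (hDC (pt_mem hD (TT D φ (φ + θ) x)))))
      rw [abs_le] at h6 h7
      have h8 : b ≤ tc φ (pt D (TT D φ (φ + θ) x)) := by linarith [h6.2, h7.1]
      have h9 : Ioc a b ∩ Iic (tc φ (pt D (TT D φ (φ + θ) x))) = Ioc a b := by
        refine inter_eq_left.2 fun z hz => ?_
        exact hz.2.trans h8
      rw [h9] at hint
      have h10 : ((i + 1 : ℕ) : ℝ≥0∞) * c ≤ N * c := by
        gcongr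
      exact absurd (hint.trans h10) (not_le.2 hN)
  exact (key N le_rfl).2.1.le

/-! ### levels -/

theorem tc_pi (φ : ℝ) (z : ℂ) : tc (φ + π) z = -tc φ z := by
  simp only [tc, Real.cos_add_pi, Real.sin_add_pi]
  ring

theorem noSeg_pi {C : Set ℂ} {φ : ℝ} (h : NoSeg C φ) : NoSeg C (φ + π) := by
  intro p hp q hq hpq h1
  rw [tc_pi, tc_pi, neg_inj] at h1
  obtain ⟨z, hz, h2⟩ := h p hp q hq hpq h1
  exact ⟨z, hz, by rw [tc_pi, tc_pi, h2]⟩

theorem level_pos {C : Set ℂ} {φ : ℝ} (hS : NoSeg C φ) {m M : ℝ} (hm : ∀ z ∈ C, m ≤ tc φ z)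
    (hM : ∀ z ∈ C, tc φ z ≤ M) {t : ℝ} (ht : 0 < xr C φ t) : m < t ∧ t < M := by
  have h0 : volume {s : ℝ | (t : ℂ) * (Complex.I * e φ) + s * e φ ∈ C} ≠ 0 := by
    intro h0
    rw [xr, h0] at ht
    simp at ht
  have h1 : ¬ ({s : ℝ | (t : ℂ) * (Complex.I * e φ) + s * e φ ∈ C}).Subsingleton :=
    fun h => h0 (h.measure_zero _)
  rw [Set.not_subsingleton_iff] at h1
  obtain ⟨s₁, h₁, s₂, h₂, hne⟩ := h1
  obtain ⟨z, hz, h3⟩ := hS _ h₁ _ h₂ (by
    intro h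
    apply hne
    have := congrArg (yc φ) h
    rwa [yc_fr, yc_fr] at this) (by rw [tc_fr, tc_fr])
  rw [tc_fr] at h3
  refine ⟨h3 ▸ int_level hm z hz, ?_⟩
  have h4 := int_level (D := C) (φ := φ + π) (m := -M) (fun w hw => by
    rw [tc_pi]
    linarith [hM w hw]) z hz
  rw [tc_pi, h3] at h4
  linarith

theorem exhaust {f : ℝ → ℝ≥0∞} {m M : ℝ} {c : ℝ≥0∞} (h : c < ∫⁻ x in Ioo m M, f x) :
    ∃ a b, m < a ∧ b < M ∧ c < ∫⁻ x in Ioc a b, f x := by
  have h1 : Ioo m M = ⋃ n : ℕ, Ioc (m + 1 / ((n : ℝ) + 1)) (M - 1 / ((n : ℝ) + 1)) := by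
    ext x
    simp only [mem_Ioo, mem_iUnion, mem_Ioc]
    constructor
    · rintro ⟨h1, h2⟩
      obtain ⟨n, hn⟩ := exists_nat_one_div_lt (lt_min (sub_pos.2 h1) (sub_pos.2 h2))
      exact ⟨n, by linarith [hn.trans_le (min_le_left _ _)],
        by linarith [hn.trans_le (min_le_right _ _)]⟩
    · rintro ⟨n, h1, h2⟩
      have : (0 : ℝ) < 1 / ((n : ℝ) + 1) := by positivity
      exact ⟨by linarith, by linarith⟩
  have h2 : Directed (· ⊆ ·) fun n : ℕ =>
      Ioc (m + 1 / ((n : ℝ) + 1)) (M - 1 / ((n : ℝ) + 1)) := by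
    apply directed_of_isDirected_le
    intro i j hij
    have h3 : 1 / ((j : ℝ) + 1) ≤ 1 / ((i : ℝ) + 1) := by
      apply one_div_le_one_div_of_le (by positivity)
      have : (i : ℝ) ≤ j := by exact_mod_cast hij
      linarith
    exact Ioc_subset_Ioc (by linarith) (by linarith)
  rw [h1, setLIntegral_iUnion_of_directed _ h2] at h
  obtain ⟨n, hn⟩ := lt_iSup_iff.1 h
  have : (0 : ℝ) < 1 / ((n : ℝ) + 1) := by positivity
  exact ⟨_, _, by linarith, by linarith, hn⟩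

theorem Tm_pi (C : Set ℂ) (φ : ℝ) : Tm C (φ + π) = Tm C φ := by
  unfold Tm
  have h1 : {t : ℝ | 0 < xr C (φ + π) t} = Neg.neg ⁻¹' {t : ℝ | 0 < xr C φ t} := by
    ext t
    show 0 < xr C (φ + π) t ↔ 0 < xr C φ (-t)
    rw [xr_pi]
  have h2 : ∀ t, ENNReal.ofReal (2 / xr C (φ + π) t) =
      (fun t => ENNReal.ofReal (2 / xr C φ t)) (-t) := by
    intro t
    simp only [xr_pi]
  rw [h1]
  simp only [h2]
  exact (Measure.measurePreserving_neg volume).setLIntegral_comp_preimage_emb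
    (MeasurableEquiv.neg ℝ).measurableEmbedding (fun t => ENNReal.ofReal (2 / xr C φ t))
    {t : ℝ | 0 < xr C φ t}

theorem pt_tendsto {C : Set ℂ} {W : ℕ → Set ℂ} (h : BLim W C) (x : ℝ) :
    Tendsto (fun n => pt (W n) x) atTop (𝓝 (pt C x)) := by
  have h1 : Tendsto (fun n => rad (W n) x) atTop (𝓝 (rad C x)) := h.tendsto_at x
  unfold pt
  exact ((Complex.continuous_ofReal.tendsto _).comp h1).mul_const _

theorem tc_tendsto {C : Set ℂ} {W : ℕ → Set ℂ} (h : BLim W C) (φ x : ℝ) :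
    Tendsto (fun n => tc φ (pt (W n) x)) atTop (𝓝 (tc φ (pt C x))) := by
  have h1 : Tendsto (fun n => rad (W n) x) atTop (𝓝 (rad C x)) := h.tendsto_at x
  simp only [tc_pt]
  exact h1.mul_const _

/-- The half turn of LOW, for all large `n`. -/
theorem ev_half (hFLX : FLXStmt) (hFLB : FLBStmt) (hMNF : MNFStmt) {C : Set ℂ} {W : ℕ → Set ℂ}
    {φ : ℝ} {θ : ℕ → ℝ} (hC : Body C) (hS : NoSeg C φ) (hW : ∀ n, Body (W n))
    (hWC : ∀ n, W n ⊆ C) (hl : BLim W C) (hS1 : ∀ n, NoSeg (W n) φ)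
    (hS2 : ∀ n, NoSeg (W n) (φ + θ n)) (hθ : ∀ n, 0 < θ n) (hθ0 : Tendsto θ atTop (𝓝 0))
    {L : ℝ} (hL : 0 ≤ L) (hLT : ENNReal.ofReal L < Tm C φ) :
    ∀ᶠ n in atTop, ∀ r l, Tips (W n) φ r l → ∀ N : ℕ, (N : ℝ) * (2 * θ n) ≤ L →
      (TT (W n) φ (φ + θ n))^[N] r ≤ l := by
  have hpi := Real.pi_pos
  obtain ⟨rC, lC, hT⟩ := tips_of (hFLX C φ hC hS).1
  set m := tc φ (pt C rC) with hm
  set M := tc φ (pt C lC) with hM
  set f : ℝ → ℝ≥0∞ := fun t => ENNReal.ofReal (2 / xr C φ t) with hf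
  have h1 : ENNReal.ofReal L < ∫⁻ x in Ioo m M, f x := by
    refine lt_of_lt_of_le hLT (lintegral_mono_set fun t ht => ?_)
    exact level_pos hS hT.mn hT.mx ht
  obtain ⟨a, b, ha, hb, h2⟩ := exhaust h1
  obtain ⟨L₂, h3, h4, h5⟩ := ENNReal.lt_iff_exists_real_btwn.1 h2
  have h6 : L < L₂ := by
    by_contra h
    push Not at h
    exact absurd h4 (not_lt.2 (ENNReal.ofReal_le_ofReal h))
  obtain ⟨R, hR⟩ : ∃ R, C ⊆ closedBall 0 R := hC.cpt.isBounded.subset_closedBall 0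
  have hL2 : 0 < L₂ := lt_of_le_of_lt hL h6
  set κ := (L + L₂) / (2 * L₂) with hκ
  have hκ0 : 0 < κ := by positivity
  have hκ1 : κ < 1 := by
    rw [hκ, div_lt_one (by positivity)]
    linarith
  have hκL : L / κ < L₂ := by
    rw [div_lt_iff₀ hκ0, hκ]
    field_simp
    nlinarith
  have e1 : ∀ᶠ n in atTop, κ ≤ Real.cos (θ n) -
      (2 * R / (M - b) + 2 * R / (a - m)) * Real.sin (θ n) := by
    have h7 : Tendsto (fun x : ℝ => Real.cos x -
        (2 * R / (M - b) + 2 * R / (a - m)) * Real.sin x) (𝓝 0) (𝓝 1) := by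
      have : ContinuousAt (fun x : ℝ => Real.cos x -
        (2 * R / (M - b) + 2 * R / (a - m)) * Real.sin x) 0 := by fun_prop
      simpa [ContinuousAt] using this
    exact ((h7.comp hθ0).eventually (lt_mem_nhds hκ1)).mono fun n hn => hn.le
  have e2 : ∀ᶠ n in atTop, θ n < π := hθ0.eventually (gt_mem_nhds hpi)
  have e3 : ∀ᶠ n in atTop, tc φ (pt (W n) rC) < a :=
    (tc_tendsto hl φ rC).eventually (gt_mem_nhds ha)
  have e4 : ∀ᶠ n in atTop, b + 4 * R * θ n < tc φ (pt (W n) lC) := by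
    have h7 : Tendsto (fun n => tc φ (pt (W n) lC) - 4 * R * θ n) atTop (𝓝 (M - 4 * R * 0)) :=
      (tc_tendsto hl φ lC).sub (hθ0.const_mul _)
    rw [mul_zero, sub_zero] at h7
    exact (h7.eventually (lt_mem_nhds hb)).mono fun n hn => by linarith
  filter_upwards [e1, e2, e3, e4] with n g1 g2 g3 g4
  intro r l hTn N hN
  have hsin : 0 < Real.sin (θ n) := Real.sin_pos_of_pos_of_lt_pi (hθ n) g2
  have hflip := (hFLX _ _ (hW n) (hS1 n)).1
  have hflip' := (hFLX _ _ (hW n) (hS2 n)).1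
  have hFF : ∀ x, fl (W n) φ x ≤ fl (W n) (φ + θ n) x := fun x =>
    (hMNF _ _ _ x (hW n) (hS1 n) (hS2 n) (by linarith [hθ n])).1
  have hFF' : ∀ x, fl (W n) (φ + θ n) x ≤ fl (W n) φ x + 2 * π := by
    intro x
    have := (hMNF _ _ _ x (hW n) (hS2 n) (noSeg_pi (hS1 n)) (by linarith)).1
    rwa [(hFLB _ _ (hW n) (hS1 n)).2.2.1 x] at this
  refine half_low hC.conv hR (pt_mem hC rC) (pt_mem hC lC) hm.symm hM.symm ha hb (hθ n) hsin
    hκ0 g1 (hW n) (hWC n) (hS2 n) hflip hflip' hFF hFF' hTn ?_ ?_ N ?_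
  · exact (hTn.mn _ (pt_mem (hW n) rC)).trans g3.le
  · exact g4.le.trans (hTn.mx _ (pt_mem (hW n) lC))
  · have g5 : (N : ℝ≥0∞) * ENNReal.ofReal (2 * Real.sin (θ n) / κ) =
        ENNReal.ofReal (N * (2 * Real.sin (θ n) / κ)) := by
      rw [ENNReal.ofReal_mul (Nat.cast_nonneg N), ENNReal.ofReal_natCast]
    have g6 : (N : ℝ) * (2 * Real.sin (θ n) / κ) ≤ L₂ := by
      have g7 : Real.sin (θ n) ≤ θ n := Real.sin_le (hθ n).le
      calc (N : ℝ) * (2 * Real.sin (θ n) / κ) ≤ N * (2 * θ n / κ) := by gcongr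
        _ = N * (2 * θ n) / κ := by ring
        _ ≤ L / κ := by gcongr
        _ ≤ L₂ := hκL.le
    rw [g5]
    exact (ENNReal.ofReal_le_ofReal g6).trans_lt h5

theorem tips_pi (hFLB : FLBStmt) {D : Set ℂ} {φ r l : ℝ} (hD : Body D) (hS : NoSeg D φ)
    (hf : IsFlip D φ (fl D φ)) (h : Tips D φ r l) : Tips D (φ + π) l (r + 2 * π) := by
  have h1 := (hFLB D φ hD hS).2.2.1
  have h2 : pt D (r + 2 * π) = pt D r := pt_periodic D r
  refine ⟨by linarith [h.l1], h.l2, by linarith [h.r1], by linarith [h.r2], ?_, ?_, ?_, ?_⟩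
  · intro z hz
    rw [tc_pi, tc_pi]
    linarith [h.mx z hz]
  · intro z hz
    rw [tc_pi, tc_pi, h2]
    linarith [h.mn z hz]
  · rw [h1, h.fL]
    ring
  · rw [h1, hf.per, h.fr]
    ring

theorem TT_pi (hFLB : FLBStmt) {D : Set ℂ} {φ ψ : ℝ} (hD : Body D) (hS : NoSeg D φ)
    (hS' : NoSeg D ψ) (h' : IsFlip D ψ (fl D ψ)) : TT D (φ + π) (ψ + π) = TT D φ ψ := by
  funext x
  unfold TT
  rw [(hFLB D φ hD hS).2.2.1, (hFLB D ψ hD hS').2.2.1, h'.per]
  ring

end HL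

open HL

/-- LOW. -/
theorem t_low (hFLX : FLXStmt) (hFLB : FLBStmt) (hRHA : RHAStmt) (hMNF : MNFStmt) : LOWStmt := by
  intro C W φ θ hC hS hW hWC hl hS1 hS2 hθ hθ0 L hL hLT
  have hpi := Real.pi_pos
  obtain ⟨L', h1, h2, h3⟩ := ENNReal.lt_iff_exists_real_btwn.1 hLT
  have h4 : L < L' := by
    by_contra h
    push Not at h
    exact absurd h2 (not_lt.2 (ENNReal.ofReal_le_ofReal h))
  have e1 := ev_half hFLX hFLB hMNF hC hS hW hWC hl hS1 hS2 hθ hθ0 h1 h3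
  have hS2' : ∀ n, NoSeg (W n) (φ + π + θ n) := fun n => by
    have := noSeg_pi (hS2 n)
    rwa [add_right_comm] at this
  have e2 := ev_half hFLX hFLB hMNF hC (noSeg_pi hS) hW hWC hl (fun n => noSeg_pi (hS1 n)) hS2' hθ
    hθ0 h1 (by rwa [Tm_pi])
  have e3 : ∀ᶠ n in atTop, θ n < (L' - L) / 2 := hθ0.eventually (gt_mem_nhds (by linarith))
  have e4 : ∀ᶠ n in atTop, θ n < L' / 2 := hθ0.eventually (gt_mem_nhds (by linarith))
  filter_upwards [e1, e2, e3, e4] with n g1 g2 g3 g4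
  have hflip := (hFLX _ _ (hW n) (hS1 n)).1
  have hflip' := (hFLX _ _ (hW n) (hS2 n)).1
  obtain ⟨r, l, hT⟩ := tips_of hflip
  set N := ⌊L' / (2 * θ n)⌋₊ with hN
  have hθn := hθ n
  have hq : 1 < L' / (2 * θ n) := by
    rw [lt_div_iff₀ (by positivity)]
    linarith
  have hN1 : 0 < N := Nat.floor_pos.2 hq.le
  have hN2 : (N : ℝ) * (2 * θ n) ≤ L' := by
    rw [← le_div_iff₀ (by positivity)]
    exact Nat.floor_le (by positivity)
  have hN3 : L' < ((N : ℝ) + 1) * (2 * θ n) := by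
    rw [← div_lt_iff₀ (by positivity)]
    exact Nat.lt_floor_add_one _
  have k1 := g1 r l hT N hN2
  have k2 := g2 l (r + 2 * π) (tips_pi hFLB (hW n) (hS1 n) hflip hT) N hN2
  rw [add_right_comm, TT_pi hFLB (hW n) (hS1 n) (hS2 n) hflip'] at k2
  have hdeg : Deg1 (TT (W n) φ (φ + θ n)) := ((hFLB _ _ (hW n) (hS1 n)).2.2.2.2.2 _ (hS2 n)).1
  have k3 : (TT (W n) φ (φ + θ n))^[2 * N] r ≤ r + 2 * π * ((1 : ℤ) : ℝ) := by
    rw [two_mul, Function.iterate_add_apply]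
    have := (hdeg.mono.monotone.iterate N) k1
    push_cast
    rw [mul_one]
    exact this.trans k2
  have k4 := (hRHA _ hdeg).1 r 1 (2 * N) (by omega) k3
  have k5 : rot (W n) φ (φ + θ n) ≤ 1 / (2 * N) := by
    unfold rot
    push_cast at k4
    exact k4
  have hNr : (0 : ℝ) < N := by exact_mod_cast hN1
  calc L * rot (W n) φ (φ + θ n) ≤ L * (1 / (2 * N)) := mul_le_mul_of_nonneg_left k5 hL
    _ ≤ θ n := by
      rw [mul_one_div, div_le_iff₀ (by positivity)]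
      nlinarith

end Pool.XR2
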