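import Pool.Agent.H47.XR2.RHA

/-!
# Project XR2: levels of boundary points, chords, X-rays (for the rows LOW and UPP)
-/

set_option autoImplicit false

open MeasureTheory Set Filter Topology Metric
open scoped Real ENNReal

namespace Pool.XR2

open Pool.Agent.H45.XR

namespace HL

/-- The level is strictly monotone on both arcs between the tips. -/
theorem mono_level {D : Set ℂ} (hD : Body D) {φ r l : ℝ} (hS : NoSeg D φ)
    (hr1 : φ - π < r) (hr2 : r < φ) (hl1 : φ < l) (hl2 : l < φ + π)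
    (hr : ∀ z ∈ D, tc φ (pt D r) ≤ tc φ z) (hl : ∀ z ∈ D, tc φ z ≤ tc φ (pt D l)) :
    StrictMonoOn (fun θ => tc φ (pt D θ)) (Icc r l) ∧
    StrictAntiOn (fun θ => tc φ (pt D θ)) (Icc (l - 2 * π) r) := by
  have hpi := Real.pi_pos
  have hin : ∀ θ, pt D θ ∈ D := pt_mem hD
  have hni : ∀ θ, pt D θ ∉ interior D := pt_notMem_interior hD
  have hr0 : tc φ (pt D r) < 0 := by
    have h1 := hr _ (hin (φ - π / 2))
    have h2 : tc φ (pt D (φ - π / 2)) = - rad D (φ - π / 2) := by
      rw [tc_pt, show φ - π / 2 - φ = -(π / 2) by ring, Real.sin_neg, Real.sin_pi_div_two]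
      ring
    have := rad_pos hD (φ - π / 2)
    linarith
  have hl0 : 0 < tc φ (pt D l) := by
    have h1 := hl _ (hin (φ + π / 2))
    have h2 : tc φ (pt D (φ + π / 2)) = rad D (φ + π / 2) := by
      rw [tc_pt, show φ + π / 2 - φ = π / 2 by ring, Real.sin_pi_div_two]
      ring
    have := rad_pos hD (φ + π / 2)
    linarith
  have tipr : ∀ z ∈ interior D, tc φ (pt D r) < tc φ z := fun z hz =>
    (B3.tip_le hD hr0 (fun θ => hr _ (hin θ)) (interior_subset hz)).2 hz
  have tipl : ∀ z ∈ interior D, tc φ z < tc φ (pt D l) := by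
    intro z hz
    have := (B3.tip_le hD (φ := φ + π) (r := l) (by rw [B3.tc_add_pi]; linarith)
      (fun θ => by rw [B3.tc_add_pi, B3.tc_add_pi]; linarith [hl _ (hin θ)])
      (interior_subset hz)).2 hz
    rw [B3.tc_add_pi, B3.tc_add_pi] at this
    linarith
  set T : ℝ → ℝ := fun θ => tc φ (pt D θ) with hT
  have hTc : Continuous T := B3.continuous_T hD φ
  have hTp : Function.Periodic T (2 * π) := B3.periodic_T D φ
  have hTl : T (l - 2 * π) = T l := by
    rw [← hTp (l - 2 * π)]; congr 1; ring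
  have two : ∀ a b : ℝ, a < b → b < a + 2 * π → T a = T b →
      (∃ z ∈ interior D, tc φ z = T a) ∧ T r < T a ∧ T a < T l := by
    intro a b hab hba hT1
    obtain ⟨z, hz, hz1⟩ := hS _ (hin a) _ (hin b) (B3.pt_ne hD hab hba) hT1
    refine ⟨⟨z, hz, hz1⟩, ?_, ?_⟩
    · have := tipr z hz
      rw [hz1] at this; exact this
    · have := tipl z hz
      rw [hz1] at this; exact this
  have inj1 : InjOn T (Icc r l) := by
    have key : ∀ a ∈ Icc r l, ∀ b ∈ Icc r l, a < b → T a ≠ T b := by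
      intro a ha b hb hab h
      obtain ⟨⟨z, hz, hz1⟩, h1, h2⟩ := two a b hab (by linarith [ha.1, hb.2]) h
      obtain ⟨c, hc, hc1⟩ := intermediate_value_Icc' (by linarith : l - 2 * π ≤ r)
        hTc.continuousOn (show T a ∈ Icc (T r) (T (l - 2 * π)) by
          rw [hTl]; exact ⟨h1.le, h2.le⟩)
      have hcr : c < r := lt_of_le_of_ne hc.2 (by rintro rfl; linarith)
      have hcl : l - 2 * π < c := lt_of_le_of_ne hc.1 (by rintro rfl; linarith)
      exact B3.three_pts hD (hin a) (hin b) (hin c) (hni a) (hni b) (hni c) hz hz1.symm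
        (by rw [hz1]; exact h.symm) (by rw [hz1]; exact hc1)
        (B3.pt_ne hD hab (by linarith [ha.1, hb.2]))
        (B3.pt_ne hD (by linarith [ha.1] : c < a) (by linarith [ha.2])).symm
        (B3.pt_ne hD (by linarith [hb.1] : c < b) (by linarith [hb.2])).symm
    intro a ha b hb h
    rcases lt_trichotomy a b with hab | hab | hab
    · exact absurd h (key a ha b hb hab)
    · exact hab
    · exact absurd h.symm (key b hb a ha hab)
  have inj2 : InjOn T (Icc (l - 2 * π) r) := by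
    have key : ∀ a ∈ Icc (l - 2 * π) r, ∀ b ∈ Icc (l - 2 * π) r, a < b → T a ≠ T b := by
      intro a ha b hb hab h
      obtain ⟨⟨z, hz, hz1⟩, h1, h2⟩ := two a b hab (by linarith [ha.1, hb.2]) h
      obtain ⟨c, hc, hc1⟩ := intermediate_value_Icc (by linarith : r ≤ l)
        hTc.continuousOn (show T a ∈ Icc (T r) (T l) from ⟨h1.le, h2.le⟩)
      have hcr : r < c := lt_of_le_of_ne hc.1 (by rintro rfl; linarith)
      have hcl : c < l := lt_of_le_of_ne hc.2 (by rintro rfl; linarith)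
      exact B3.three_pts hD (hin a) (hin b) (hin c) (hni a) (hni b) (hni c) hz hz1.symm
        (by rw [hz1]; exact h.symm) (by rw [hz1]; exact hc1)
        (B3.pt_ne hD hab (by linarith [ha.1, hb.2]))
        (B3.pt_ne hD (by linarith [ha.2] : a < c) (by linarith [ha.1]))
        (B3.pt_ne hD (by linarith [hb.2] : b < c) (by linarith [hb.1]))
    intro a ha b hb h
    rcases lt_trichotomy a b with hab | hab | hab
    · exact absurd h (key a ha b hb hab)
    · exact hab
    · exact absurd h.symm (key b hb a ha hab)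
  have hlt : T r < T l := by
    have h1 : T r < 0 := hr0
    have h2 : 0 < T l := hl0
    linarith
  exact ⟨hTc.continuousOn.strictMonoOn_of_injOn_Icc (by linarith) hlt.le inj1,
    hTc.continuousOn.strictAntiOn_of_injOn_Icc (by linarith) (by rw [hTl]; exact hlt.le) inj2⟩

/-- interior points are strictly between the extreme levels -/
theorem int_level {D : Set ℂ} {φ m : ℝ} (hm : ∀ z ∈ D, m ≤ tc φ z) :
    ∀ z ∈ interior D, m < tc φ z := by
  intro z hz
  obtain ⟨δ, hδ, hb⟩ := Metric.isOpen_iff.1 isOpen_interior z hz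
  have h1 : z + ((-(δ / 2) : ℝ) : ℂ) * (Complex.I * e φ) ∈ D := by
    apply interior_subset
    apply hb
    rw [Metric.mem_ball, dist_eq_norm]
    have : z + ((-(δ / 2) : ℝ) : ℂ) * (Complex.I * e φ) - z =
        ((-(δ / 2) : ℝ) : ℂ) * (Complex.I * e φ) := by ring
    rw [this, norm_mul, norm_mul, norm_e, Complex.norm_I, Complex.norm_real]
    simp only [mul_one, norm_neg, Real.norm_eq_abs]
    rw [abs_of_pos (by linarith)]
    linarith
  have h2 := hm _ h1
  have h3 : tc φ (Complex.I * e φ) = 1 := by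
    simp only [tc, Complex.mul_re, Complex.mul_im, Complex.I_re, Complex.I_im, e_re, e_im]
    nlinarith [Real.sin_sq_add_cos_sq φ]
  rw [tc_add, tc_mul, h3] at h2
  linarith

/-- A chord whose end points are boundary points is maximal. -/
theorem chord_max {D : Set ℂ} (hD : Body D) {φ : ℝ} (hS : NoSeg D φ) {P Q : ℂ} (hP : P ∈ D)
    (hQ : Q ∈ D) (nP : P ∉ interior D) (nQ : Q ∉ interior D) {s : ℝ} (hs : 0 < s)
    (h : Q = P + s * e φ) : ∀ u : ℝ, P + u * e φ ∈ D → 0 ≤ u ∧ u ≤ s := by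
  have hne : P ≠ Q := by
    intro h1
    have h2 : (s : ℂ) * e φ = 0 := by
      rw [← h1] at h
      linear_combination -h
    rcases mul_eq_zero.mp h2 with h3 | h3
    · exact hs.ne' (by exact_mod_cast h3)
    · exact e_ne_zero _ h3
  have hlev : tc φ P = tc φ Q := by
    rw [h, tc_add, tc_mul, tc_e_self]; ring
  obtain ⟨z, hz, hz1⟩ := hS P hP Q hQ hne hlev
  have hz2 := eq_add_of_tc_eq hz1
  rw [hz2] at hz
  intro u hu
  constructor
  · by_contra hlt
    push Not at hlt
    apply nP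
    have := B3.btw hD.conv (p := P) (d := e φ) (a := u) (b := 0) (c := s) hu (by rw [← h]; exact hQ)
      hz hlt hs
    simpa using this
  · by_contra hlt
    push Not at hlt
    apply nQ
    rw [h]
    exact B3.btw hD.conv (p := P) (d := e φ) (a := 0) (b := s) (c := u) (by simpa using hP) hu
      hz hs hlt

/-! ### X-rays -/

theorem xr_set {C : Set ℂ} {φ : ℝ} {z : ℂ} (hz : z ∈ C) :
    yc φ z ∈ {s : ℝ | ((tc φ z : ℝ) : ℂ) * (Complex.I * e φ) + s * e φ ∈ C} := by
  show _ ∈ C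
  rw [add_comm, ← decomp φ z]
  exact hz

theorem tc_fr (φ t s : ℝ) : tc φ ((t : ℂ) * (Complex.I * e φ) + s * e φ) = t := by
  have h3 : tc φ (Complex.I * e φ) = 1 := by
    simp only [tc, Complex.mul_re, Complex.mul_im, Complex.I_re, Complex.I_im, e_re, e_im]
    nlinarith [Real.sin_sq_add_cos_sq φ]
  rw [tc_add, tc_mul, tc_mul, h3, tc_e_self]
  ring

theorem yc_fr (φ t s : ℝ) : yc φ ((t : ℂ) * (Complex.I * e φ) + s * e φ) = s := by
  have h3 : yc φ (Complex.I * e φ) = 0 := by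
    simp only [yc, Complex.mul_re, Complex.mul_im, Complex.I_re, Complex.I_im, e_re, e_im]
    ring
  rw [yc_add, yc_mul, yc_mul, h3, yc_e_self]
  ring

theorem abs_yc_le {φ : ℝ} (z : ℂ) : |yc φ z| ≤ ‖z‖ := by
  have h1 : yc φ z ^ 2 + tc φ z ^ 2 = ‖z‖ ^ 2 := by
    rw [← Complex.normSq_eq_norm_sq, Complex.normSq_apply]
    simp only [yc, tc]
    nlinarith [Real.sin_sq_add_cos_sq φ]
  exact abs_le_of_sq_le_sq (by nlinarith [sq_nonneg (tc φ z)]) (norm_nonneg z)

theorem abs_tc_le {φ : ℝ} (z : ℂ) : |tc φ z| ≤ ‖z‖ := by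
  have h1 : yc φ z ^ 2 + tc φ z ^ 2 = ‖z‖ ^ 2 := by
    rw [← Complex.normSq_eq_norm_sq, Complex.normSq_apply]
    simp only [yc, tc]
    nlinarith [Real.sin_sq_add_cos_sq φ]
  exact abs_le_of_sq_le_sq (by nlinarith [sq_nonneg (yc φ z)]) (norm_nonneg z)

theorem xr_fin {C : Set ℂ} {R : ℝ} (hR : C ⊆ closedBall 0 R) (φ t : ℝ) :
    volume {s : ℝ | (t : ℂ) * (Complex.I * e φ) + s * e φ ∈ C} ≠ ⊤ := by
  have h : {s : ℝ | (t : ℂ) * (Complex.I * e φ) + s * e φ ∈ C} ⊆ Icc (-R) R := by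
    intro s hs
    have h1 := hR hs
    rw [mem_closedBall_zero_iff] at h1
    have h2 := abs_yc_le (φ := φ) ((t : ℂ) * (Complex.I * e φ) + s * e φ)
    rw [yc_fr] at h2
    exact abs_le.1 (h2.trans h1)
  exact ((measure_mono h).trans_lt (by rw [Real.volume_Icc]; exact ENNReal.ofReal_lt_top)).ne

theorem xr_nonneg (C : Set ℂ) (φ t : ℝ) : 0 ≤ xr C φ t := ENNReal.toReal_nonneg

/-- lower bound for the X-ray -/
theorem xr_ge {C : Set ℂ} (hC : Convex ℝ C) {R : ℝ} (hR : C ⊆ closedBall 0 R) {φ : ℝ} {z w : ℂ}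
    (hz : z ∈ C) (hw : w ∈ C) (h : tc φ z = tc φ w) : yc φ w - yc φ z ≤ xr C φ (tc φ z) := by
  rcases le_or_gt (yc φ w) (yc φ z) with h1 | h1
  · have := xr_nonneg C φ (tc φ z)
    linarith
  have hsub : Icc (yc φ z) (yc φ w) ⊆
      {s : ℝ | ((tc φ z : ℝ) : ℂ) * (Complex.I * e φ) + s * e φ ∈ C} := by
    intro s hs
    have hlt : 0 < yc φ w - yc φ z := by linarith
    show _ ∈ C
    have h2 : ((tc φ z : ℝ) : ℂ) * (Complex.I * e φ) + s * e φ =
        ((yc φ w - s) / (yc φ w - yc φ z)) • z + ((s - yc φ z) / (yc φ w - yc φ z)) • w := by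
      have hd : ((yc φ w : ℂ) - yc φ z) ≠ 0 := by exact_mod_cast hlt.ne'
      have hz1 := decomp φ z
      have hw1 := decomp φ w
      rw [← h] at hw1
      set Y : ℂ := (yc φ z : ℂ)
      set Y' : ℂ := (yc φ w : ℂ)
      set S : ℂ := (tc φ z : ℂ)
      rw [Complex.real_smul, Complex.real_smul]
      push_cast
      have e1 : ((Y' - s) / (Y' - Y)) * z + ((s - Y) / (Y' - Y)) * w =
          ((Y' - s) / (Y' - Y)) * (Y * e φ + S * (Complex.I * e φ)) +
          ((s - Y) / (Y' - Y)) * (Y' * e φ + S * (Complex.I * e φ)) := by rw [← hz1, ← hw1]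
      rw [e1]
      field_simp
      ring
    rw [h2]
    refine hC hz hw (div_nonneg (by linarith [hs.2]) hlt.le) (div_nonneg (by linarith [hs.1]) hlt.le) ?_
    field_simp
    ring
  have h3 := measure_mono (μ := volume) hsub
  rw [Real.volume_Icc] at h3
  have h4 := ENNReal.toReal_mono (xr_fin hR φ (tc φ z)) h3
  rw [ENNReal.toReal_ofReal (by linarith)] at h4
  exact h4

/-- upper bound for the X-ray -/
theorem xr_le {C : Set ℂ} {φ t A B : ℝ} (hAB : A ≤ B)
    (h : ∀ z ∈ C, tc φ z = t → A ≤ yc φ z ∧ yc φ z ≤ B) : xr C φ t ≤ B - A := by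
  have hsub : {s : ℝ | (t : ℂ) * (Complex.I * e φ) + s * e φ ∈ C} ⊆ Icc A B := by
    intro s hs
    have := h _ hs (tc_fr φ t s)
    rw [yc_fr] at this
    exact this
  have h3 := measure_mono (μ := volume) hsub
  rw [Real.volume_Icc] at h3
  have h4 := ENNReal.toReal_mono ENNReal.ofReal_ne_top h3
  rw [ENNReal.toReal_ofReal (by linarith)] at h4
  exact h4

theorem xr_pi (C : Set ℂ) (φ t : ℝ) : xr C (φ + π) t = xr C φ (-t) := by
  unfold xr
  congr 1
  have h1 : {s : ℝ | (t : ℂ) * (Complex.I * e (φ + π)) + s * e (φ + π) ∈ C} =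
      Neg.neg ⁻¹' {s : ℝ | ((-t : ℝ) : ℂ) * (Complex.I * e φ) + s * e φ ∈ C} := by
    ext s
    show _ ∈ C ↔ _ ∈ C
    rw [e_add_pi]
    push_cast
    ring_nf
  rw [h1, Measure.measure_preimage_neg]

end HL

end Pool.XR2
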