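import Pool.Agent.H47.XR2.RHC

/-!
# Project XR2, row RCN: continuity of the rotation number of a body
-/

set_option autoImplicit false

open Set Filter Topology
open scoped Real

namespace Pool.XR2

open Pool.Agent.H45.XR

/-- RCN -/
theorem t_rcn (hFLC : FLCStmt) (hRHC : RHCStmt) (hFLB : FLBStmt) : RCNStmt := by
  intro C D φ₀ φ₁ ψ₀ ψ₁ hC hn0 hn1 hD hm0 hm1 hlim h0 h1
  have hd : ∀ n, Deg1 (TT (C n) (φ₀ n) (φ₁ n)) := fun n =>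
    ((hFLB (C n) (φ₀ n) (hC n) (hn0 n)).2.2.2.2.2 (φ₁ n) (hn1 n)).1
  obtain ⟨hd', hc'⟩ := (hFLB D ψ₀ hD hm0).2.2.2.2.2 ψ₁ hm1
  refine hRHC (fun n => TT (C n) (φ₀ n) (φ₁ n)) (TT D ψ₀ ψ₁) hd hd' hc' fun x => ?_
  have h2 : Tendsto (fun n => fl (C n) (φ₀ n) x) atTop (𝓝 (fl D ψ₀ x)) :=
    hFLC C D φ₀ ψ₀ (fun _ => x) x hC hn0 hD hm0 hlim h0 tendsto_const_nhds
  exact hFLC C D φ₁ ψ₁ _ _ hC hn1 hD hm1 hlim h1 h2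

end Pool.XR2
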