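import Pool.Agent.H52.XR2.S1

/-!
# Project XR2, row RHA: basic facts on rotation numbers
-/

set_option autoImplicit false

open Set Filter Topology
open scoped Real

namespace Pool.XR2

namespace RHaux

theorem lft_apply {T : ℝ → ℝ} (h : Deg1 T) (x : ℝ) : lft T x = T (2 * π * x) / (2 * π) := by
  unfold lft
  rw [dif_pos h]
  rfl

theorem two_pi_ne : (2 * π : ℝ) ≠ 0 := by positivity

theorem T_eq {T : ℝ → ℝ} (h : Deg1 T) (x : ℝ) : T x = 2 * π * lft T (x / (2 * π)) := by
  have := two_pi_ne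
  rw [lft_apply h]
  field_simp

theorem lft_iter {T : ℝ → ℝ} (h : Deg1 T) (n : ℕ) : ∀ x : ℝ,
    (lft T)^[n] x = T^[n] (2 * π * x) / (2 * π) := by
  have hp := two_pi_ne
  induction n with
  | zero =>
    intro x
    simp only [Function.iterate_zero, id_eq]
    field_simp
  | succ n ih =>
    intro x
    rw [Function.iterate_succ_apply, Function.iterate_succ_apply, ih, lft_apply h]
    congr 2
    field_simp

theorem T_iter {T : ℝ → ℝ} (h : Deg1 T) (n : ℕ) (x : ℝ) :
    T^[n] x = 2 * π * ((lft T) ^ n) (x / (2 * π)) := by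
  have hp := two_pi_ne
  rw [CircleDeg1Lift.coe_pow, lft_iter h]
  field_simp

theorem lft_cont {T : ℝ → ℝ} (h : Deg1 T) (hc : Continuous T) : Continuous (lft T) := by
  have : (lft T : ℝ → ℝ) = fun x => T (2 * π * x) / (2 * π) := by
    funext x
    exact lft_apply h x
  rw [this]
  fun_prop

theorem le_iff {T : ℝ → ℝ} (h : Deg1 T) (x : ℝ) (p : ℤ) (q : ℕ) :
    T^[q] x ≤ x + 2 * π * p ↔ ((lft T) ^ q) (x / (2 * π)) ≤ x / (2 * π) + p := by
  have hp : (0 : ℝ) < 2 * π := by positivity
  rw [T_iter h]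
  have : x + 2 * π * p = 2 * π * (x / (2 * π) + p) := by field_simp
  rw [this]
  exact mul_le_mul_iff_right₀ hp

theorem ge_iff {T : ℝ → ℝ} (h : Deg1 T) (x : ℝ) (p : ℤ) (q : ℕ) :
    x + 2 * π * p ≤ T^[q] x ↔ x / (2 * π) + p ≤ ((lft T) ^ q) (x / (2 * π)) := by
  have hp : (0 : ℝ) < 2 * π := by positivity
  rw [T_iter h]
  have : x + 2 * π * p = 2 * π * (x / (2 * π) + p) := by field_simp
  rw [this]
  exact mul_le_mul_iff_right₀ hp

theorem eq_iff {T : ℝ → ℝ} (h : Deg1 T) (x : ℝ) (p : ℤ) (q : ℕ) :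
    T^[q] x = x + 2 * π * p ↔ ((lft T) ^ q) (x / (2 * π)) = x / (2 * π) + p := by
  rw [le_antisymm_iff, le_antisymm_iff, le_iff h, ge_iff h]

end RHaux

open RHaux

/-- RHA -/
theorem t_rha : RHAStmt := by
  intro T hT
  have hp : (0 : ℝ) < 2 * π := by positivity
  have h1 : ∀ (x : ℝ) (p : ℤ) (q : ℕ), 0 < q → T^[q] x ≤ x + 2 * π * p → rho T ≤ p / q := by
    intro x p q hq h
    have hq' : (0 : ℝ) < q := by exact_mod_cast hq
    rw [le_iff hT] at h
    have h2 := CircleDeg1Lift.translationNumber_le_of_le_add_int _ h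
    rw [CircleDeg1Lift.translationNumber_pow] at h2
    rw [le_div_iff₀ hq', mul_comm]
    exact h2
  have h2 : ∀ (x : ℝ) (p : ℤ) (q : ℕ), 0 < q → x + 2 * π * p ≤ T^[q] x → (p : ℝ) / q ≤ rho T := by
    intro x p q hq h
    have hq' : (0 : ℝ) < q := by exact_mod_cast hq
    rw [ge_iff hT] at h
    have h2 := CircleDeg1Lift.le_translationNumber_of_add_int_le _ h
    rw [CircleDeg1Lift.translationNumber_pow] at h2
    rw [div_le_iff₀ hq', mul_comm]
    exact h2
  have h3 : ∀ (x : ℝ) (p : ℤ) (q : ℕ), 0 < q → T^[q] x = x + 2 * π * p → rho T = p / q := by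
    intro x p q hq h
    exact le_antisymm (h1 x p q hq h.le) (h2 x p q hq h.ge)
  refine ⟨h1, h2, h3, ?_, ?_, ?_, ?_, ?_⟩
  · intro p q hq hrho x m k hm hx
    have hq' : (q : ℝ) ≠ 0 := by exact_mod_cast hq.ne'
    have hm' : (m : ℝ) ≠ 0 := by exact_mod_cast hm.ne'
    have h4 := h3 x k m hm hx
    rw [hrho, div_eq_div_iff hq' hm'] at h4
    rw [eq_iff hT] at hx ⊢
    have h5 := CircleDeg1Lift.iterate_eq_of_map_eq_add_int ((lft T) ^ m) hx q
    have h6 := CircleDeg1Lift.iterate_pos_eq_iff ((lft T) ^ q) (x := x / (2 * π)) (m := p) hm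
    rw [← h6]
    have h7 : (⇑((lft T) ^ q))^[m] (x / (2 * π)) = (⇑((lft T) ^ m))^[q] (x / (2 * π)) := by
      rw [← CircleDeg1Lift.coe_pow, ← CircleDeg1Lift.coe_pow, ← pow_mul, ← pow_mul, mul_comm q m]
    rw [h7, h5]
    have : (q : ℝ) * k = m * p := by linarith
    rw [this]
  · intro hc hx
    refine CircleDeg1Lift.lt_translationNumber_of_forall_add_lt _ (lft_cont hT hc) fun x => ?_
    rw [lft_apply hT, add_zero, lt_div_iff₀ hp, mul_comm]
    exact hx _
  · intro hc hx
    refine CircleDeg1Lift.translationNumber_lt_of_forall_lt_add _ (lft_cont hT hc) fun x => ?_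
    rw [lft_apply hT, div_lt_iff₀ hp]
    have := hx (2 * π * x)
    linarith
  · intro S hS hTS
    refine CircleDeg1Lift.translationNumber_mono fun x => ?_
    rw [lft_apply hT, lft_apply hS]
    exact div_le_div_of_nonneg_right (hTS _) hp.le
  · intro S G hS hG hper hsc
    let g : CircleDeg1Lift :=
      { toFun := fun x => G (2 * π * x) / (2 * π)
        monotone' := fun x y hxy => by
          have h1 : 2 * π * x ≤ 2 * π * y := by nlinarith [Real.pi_pos]
          exact div_le_div_of_nonneg_right (hG h1) hp.le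
        map_add_one' := fun x => by
          have h1 : 2 * π * (x + 1) = 2 * π * x + 2 * π := by ring
          rw [h1, hper]
          field_simp }
    have hg : ∀ x, g x = G (2 * π * x) / (2 * π) := fun x => rfl
    refine CircleDeg1Lift.translationNumber_eq_of_semiconj (f := g) fun x => ?_
    rw [hg, lft_apply hS, lft_apply hT, hg]
    congr 1
    have e1 : 2 * π * (T (2 * π * x) / (2 * π)) = T (2 * π * x) := by field_simp
    have e2 : 2 * π * (G (2 * π * x) / (2 * π)) = G (2 * π * x) := by field_simp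
    rw [e1, e2, hsc]

end Pool.XR2
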