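import Pool.Agent.H47.XR2.RHA

/-!
# Project XR2, row RHC: continuity of the rotation number
-/

set_option autoImplicit false

open Set Filter Topology
open scoped Real

namespace Pool.XR2

open RHaux

/-- Monotone functions which converge pointwise to a continuous function converge continuously. -/
theorem tendsto_of_mono {T : ℕ → ℝ → ℝ} {S : ℝ → ℝ} (hT : ∀ n, Monotone (T n))
    (hS : Continuous S) (h : ∀ x, Tendsto (fun n => T n x) atTop (𝓝 (S x))) {x : ℕ → ℝ} {y : ℝ}
    (hx : Tendsto x atTop (𝓝 y)) : Tendsto (fun n => T n (x n)) atTop (𝓝 (S y)) := by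
  rw [tendsto_order]
  constructor
  · intro b hb
    have h1 : ∀ᶠ z in 𝓝 y, b < S z := hS.continuousAt.eventually (lt_mem_nhds hb)
    have h2 : ∀ᶠ z in 𝓝[<] y, b < S z := h1.filter_mono nhdsWithin_le_nhds
    obtain ⟨z, hz1, hz2⟩ := (h2.and self_mem_nhdsWithin).exists
    have hz3 : z < y := hz2
    filter_upwards [(h z).eventually (lt_mem_nhds hz1), hx.eventually (lt_mem_nhds hz3)] with n h3 h4
    exact h3.trans_le (hT n h4.le)
  · intro b hb
    have h1 : ∀ᶠ z in 𝓝 y, S z < b := hS.continuousAt.eventually (gt_mem_nhds hb)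
    have h2 : ∀ᶠ z in 𝓝[>] y, S z < b := h1.filter_mono nhdsWithin_le_nhds
    obtain ⟨z, hz1, hz2⟩ := (h2.and self_mem_nhdsWithin).exists
    have hz3 : y < z := hz2
    filter_upwards [(h z).eventually (gt_mem_nhds hz1), hx.eventually (gt_mem_nhds hz3)] with n h3 h4
    exact (hT n h4.le).trans_lt h3

theorem tendsto_iter {T : ℕ → ℝ → ℝ} {S : ℝ → ℝ} (hT : ∀ n, Monotone (T n))
    (hS : Continuous S) (h : ∀ x, Tendsto (fun n => T n x) atTop (𝓝 (S x))) (q : ℕ) (x : ℝ) :
    Tendsto (fun n => (T n)^[q] x) atTop (𝓝 (S^[q] x)) := by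
  induction q with
  | zero => simp
  | succ q ih =>
    simp only [Function.iterate_succ_apply']
    exact tendsto_of_mono hT hS h ih

/-- RHC -/
theorem t_rhc : RHCStmt := by
  intro T S hT hS hSc h
  have hm : ∀ n, Monotone (T n) := fun n => (hT n).mono.monotone
  rw [tendsto_order]
  constructor
  · intro a ha
    obtain ⟨r, hr1, hr2⟩ := exists_rat_btwn ha
    have hq : 0 < r.den := r.den_pos
    have hq' : (0 : ℝ) < r.den := by exact_mod_cast hq
    have hr : (r : ℝ) = (r.num : ℝ) / r.den := by exact_mod_cast (Rat.num_div_den r).symm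
    have h1 : ((r.num : ℤ) : ℝ) < ((lft S) ^ r.den).translationNumber := by
      rw [CircleDeg1Lift.translationNumber_pow]
      rw [hr, div_lt_iff₀ hq'] at hr2
      rw [mul_comm]
      exact hr2
    have h2 := CircleDeg1Lift.lt_map_of_int_lt_translationNumber _ h1 (0 / (2 * π))
    have h3 : 0 + 2 * π * (r.num : ℝ) < S^[r.den] 0 := by
      rw [T_iter hS]
      have : (0 : ℝ) + 2 * π * (r.num : ℝ) = 2 * π * (0 / (2 * π) + r.num) := by simp
      rw [this]
      exact mul_lt_mul_of_pos_left h2 (by positivity)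
    filter_upwards [(tendsto_iter hm hSc h r.den 0).eventually (lt_mem_nhds h3)] with n hn
    have h4 := (t_rha (T n) (hT n)).2.1 0 r.num r.den hq hn.le
    rw [← hr] at h4
    exact hr1.trans_le h4
  · intro a ha
    obtain ⟨r, hr1, hr2⟩ := exists_rat_btwn ha
    have hq : 0 < r.den := r.den_pos
    have hq' : (0 : ℝ) < r.den := by exact_mod_cast hq
    have hr : (r : ℝ) = (r.num : ℝ) / r.den := by exact_mod_cast (Rat.num_div_den r).symm
    have h1 : ((lft S) ^ r.den).translationNumber < ((r.num : ℤ) : ℝ) := by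
      rw [CircleDeg1Lift.translationNumber_pow]
      rw [hr, lt_div_iff₀ hq'] at hr1
      rw [mul_comm]
      exact hr1
    have h2 := CircleDeg1Lift.map_lt_of_translationNumber_lt_int _ h1 (0 / (2 * π))
    have h3 : S^[r.den] 0 < 0 + 2 * π * (r.num : ℝ) := by
      rw [T_iter hS]
      have : (0 : ℝ) + 2 * π * (r.num : ℝ) = 2 * π * (0 / (2 * π) + r.num) := by simp
      rw [this]
      exact mul_lt_mul_of_pos_left h2 (by positivity)
    filter_upwards [(tendsto_iter hm hSc h r.den 0).eventually (gt_mem_nhds h3)] with n hn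
    have h4 := (t_rha (T n) (hT n)).1 0 r.num r.den hq hn.le
    rw [← hr] at h4
    exact h4.trans_lt hr2

end Pool.XR2
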